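import Mathlib
import Pool.Agent.H26.SIF.Defs
import Pool.Agent.H84.SIF.Gap24

/-!
# MP_008206_co, Q1: a bound for the gap which depends only on `n - k`

`M(n, I_k)` exceeds the conjectured value by at most `(n - k - 3)² / 24`, for all `n ≥ k`.
-/

namespace Pool.Agent.Results.MP_008206_co.DifferenceBound

open SIF

theorem result (n k : ℕ) (hkn : k ≤ n) :
    24 * ((maxOnes n (idMat k) : ℤ) - ((n : ℤ) ^ 2 - (2 * k - 3) * n + k ^ 2 - 2 * k)) ≤
      ((n : ℤ) - k - 3) ^ 2 :=
  SIFU.gap_maxOnes n k hkn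

end Pool.Agent.Results.MP_008206_co.DifferenceBound
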