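import Mathlib
import Pool.Agent.H37.ForcingDefs
import Pool.Agent.H37.ForcingMatrix
import Pool.Agent.H84.SIF.Full24
import Pool.Agent.H48.SIF.Full11
import Pool.Agent.H10.LIN.Glue
import Pool.Agent.H10.LIN.Range

/-!
# The maximum number of ones of a strongly identity-forcing matrix

The conjectured value of `M(n, I_k)` is correct whenever `k ≤ 11`, or `n ≤ k + 13`, or
`4 k n + 4 k ≤ n² + 2 k² + 9 n`; in particular for every `k` and all `n ≥ (2 + √2) k - 9`.
-/

namespace Pool.Agent.Results.MP_008206_co.ExactRange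

open Pool.Agent.H37.Forcing

theorem result (n k : ℕ) (hk : 2 ≤ k) (hkn : k ≤ n)
    (h : k ≤ 11 ∨ n ≤ k + 13 ∨ 4 * k * n + 4 * k ≤ n ^ 2 + 2 * k ^ 2 + 9 * n) :
    IsGreatest (onesCounts n (1 : Matrix (Fin k) (Fin k) ℕ))
      ((n : ℤ) ^ 2 - (2 * k - 3) * n - (2 * k - k ^ 2)) := by
  constructor
  · obtain ⟨p, rfl⟩ : ∃ p, k = p + 2 := ⟨k - 2, by omega⟩
    obtain ⟨q, rfl⟩ : ∃ q, n = p + (q + 2) := ⟨n - p - 2, by omega⟩
    refine ⟨S p (q + 2), S_zeroOne, S_forcing (by omega), ?_⟩
    rw [S_sum]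
    have : q + 2 - 1 = q + 1 := by omega
    rw [this]
    push_cast
    ring
  · rintro t ⟨A, h01, hA, rfl⟩
    obtain ⟨j, rfl⟩ : ∃ j, n = k + j := ⟨n - k, by omega⟩
    rcases Pool.H10Lin.range_split6 k j h with h1 | h1 | ⟨rfl, h1, h2⟩
    · have h3 := SIFU.full24 (A := Pool.H10Lin.bo A) (k := k) (x := j)
        (Fintype.card_fin _) (Fintype.card_fin _) (Pool.H10Lin.U_of_forcing hA) hk h1
      apply Pool.H10Lin.bound_of_U hk hkn h01
      rw [Nat.add_sub_cancel_left]
      exact h3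
    · have hg : Good (fun r c => A r c = 1) k := by
        apply good_of_forcing (Equiv.refl (Fin k))
        have : (Equiv.Perm.permMatrix ℕ (Equiv.refl (Fin k))) =
            (1 : Matrix (Fin k) (Fin k) ℕ) := by
          ext i j
          rw [Equiv.Perm.permMatrix, Equiv.toPEquiv_refl, PEquiv.toMatrix_refl]
        rw [this]
        exact hA
      have h2 := upper (Fintype.card_fin (k + j)) (Fintype.card_fin (k + j)) hg hk hkn
        (Or.inr (Or.inl h1))
      rw [T_eq h01, Nat.add_sub_cancel_left] at h2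
      have h3 : ((∑ i, ∑ j, A i j : ℕ) : ℤ) ≤ ((k + j ^ 2 + 3 * j : ℕ) : ℤ) := by
        exact_mod_cast h2
      refine h3.trans (le_of_eq ?_)
      push_cast
      ring
    · have h3 := SIFU.extra11 (A := Pool.H10Lin.bo A) (x := j)
        (Fintype.card_fin _) (Fintype.card_fin _) (Pool.H10Lin.U_of_forcing hA) h1 h2
      apply Pool.H10Lin.bound_of_U hk hkn h01
      rw [Nat.add_sub_cancel_left]
      exact h3

end Pool.Agent.Results.MP_008206_co.ExactRange
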