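import Mathlib
import Pool.Agent.H26.SIF.Defs
import Pool.Agent.H19.SIF.Final

/-!
# MP_008206_co, Q1: `M(n, I_k)` exceeds the conjectured value by `O(k log n)`
-/

namespace Pool.Agent.Results.MP_008206_co.LogBound

open SIF

theorem result (n k : ℕ) (hk : 2 ≤ k) (hkn : k ≤ n) :
    (∀ l : ℕ, (maxOnes n (idMat k) : ℤ) *
        ((n.choose (l + 1) : ℤ) - ((k - 1).choose (l + 1) : ℤ)) ≤
      (n.choose (l + 1) : ℤ) * ((n : ℤ) - k + 1) * ((n : ℤ) - k + 1 + l)) ∧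
    (maxOnes n (idMat k) : ℝ) - ((n : ℝ) ^ 2 - (2 * k - 3) * n + k ^ 2 - 2 * k) ≤
      (3 * k - 5) / 2 * Real.log ((n : ℝ) - k + 1) + k - 1 :=
  ⟨Pool.Agent.H19.Chn.chain_max hk hkn, Pool.Agent.H19.Chn.log_max hk hkn⟩

end Pool.Agent.Results.MP_008206_co.LogBound
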