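import Mathlib
import Pool.Agent.H26.SIF.Defs
import Pool.Agent.H26.SIF.Constr
import Pool.Agent.H99.SIF.Asym

/-!
# MP_008206_co, Q1: `M(n, I_k)` exceeds the conjectured value by at most `(p + q - 3) (n - k)`

for all `p, q` with `p q ≥ min(k, 2 (n - k))`.
-/

namespace Pool.Agent.Results.MP_008206_co.RootBound

open SIF

theorem result (n k p q : ℕ) (hkn : k ≤ n) (hpq : min k (2 * (n - k)) ≤ p * q) :
    (maxOnes n (idMat k) : ℤ) - ((n : ℤ) ^ 2 - (2 * k - 3) * n + k ^ 2 - 2 * k) ≤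
      ((p : ℤ) + q - 3) * (n - k) := by
  obtain ⟨⟨A, hA, hAm⟩, -⟩ := maxOnes_spec (n := n) (idMat k)
  have h1 := asym_bound hpq hA
  rw [hAm] at h1
  have h2 : (maxOnes n (idMat k) : ℤ) + p * q ≤
      k + ((n - k + p : ℕ) : ℤ) * ((n - k + q : ℕ) : ℤ) := by
    exact_mod_cast h1
  push_cast [Nat.cast_sub hkn] at h2
  linarith [h2]

end Pool.Agent.Results.MP_008206_co.RootBound
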